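import Pool.Agent.H74R2.WT.Stmts

set_option autoImplicit false

open MeasureTheory Set

namespace H74R2.WT

noncomputable section

private theorem f3_swap_swap (z : ℂ) : swap (swap z) = z := rfl

private theorem f3_mem {G : Set ℂ} {z : ℂ} : z ∈ swap '' G ↔ swap z ∈ G := by
  constructor
  · rintro ⟨w, hw, rfl⟩
    exact hw
  · intro h
    exact ⟨swap z, h, rfl⟩

private theorem f3_ind (G : Set ℂ) (z : ℂ) : ind (swap '' G) z = ind G (swap z) := by
  unfold ind
  by_cases h : swap z ∈ G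
  · rw [if_pos (f3_mem.2 h), if_pos h]
  · rw [if_neg (fun h' => h (f3_mem.1 h')), if_neg h]

private def f3E : ℂ ≃ₗᵢ[ℝ] ℂ :=
  Complex.conjLIE.trans (rotation ⟨Complex.I, by simp [Submonoid.unitSphere]⟩)

private theorem f3E_apply (z : ℂ) : f3E z = swap z := by
  have h : f3E z = Complex.I * (starRingEnd ℂ) z := rfl
  rw [h]
  unfold swap
  apply Complex.ext <;> simp

private theorem f3_mp : MeasurePreserving swap (volume : Measure ℂ) volume := by
  have h := f3E.measurePreserving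
  have h2 : (⇑f3E : ℂ → ℂ) = swap := funext f3E_apply
  rwa [h2] at h

private theorem f3_line (c k : ℝ) : ∀ᵐ z : ℂ, z.im ≠ c + k * z.re := by
  have h1 : ∀ᵐ q : ℝ × ℝ, q.2 ≠ c + k * q.1 := by
    have hs : MeasurableSet {q : ℝ × ℝ | q.2 = c + k * q.1} :=
      measurableSet_eq_fun measurable_snd (by fun_prop)
    have h2 : (volume : Measure (ℝ × ℝ)) {q : ℝ × ℝ | q.2 = c + k * q.1} = 0 := by
      rw [Measure.volume_eq_prod, Measure.measure_prod_null hs]
      refine Filter.Eventually.of_forall fun x => ?_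
      have h3 : Prod.mk x ⁻¹' {q : ℝ × ℝ | q.2 = c + k * q.1} = {c + k * x} := by
        ext y
        simp
      show volume (Prod.mk x ⁻¹' {q : ℝ × ℝ | q.2 = c + k * q.1}) = 0
      rw [h3]
      simp
    rw [ae_iff]
    convert h2 using 2
    ext q
    simp
  exact (Complex.volume_preserving_equiv_real_prod.quasiMeasurePreserving.ae h1)

private theorem f3_sum {K : Subfield ℝ} {σ : K →+* ℝ} {φ : ℝ →+ ℝ} (hadd : P_add)
    (hφ : Semi σ φ) {G : Set ℂ} (hG : Gd K G) {ι : Type} (ts : List ι) (S : ι → Set ℂ)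
    (hS : ∀ t, Gd K (S t)) (h : ∀ᵐ z : ℂ, ind G z = (ts.map (fun t => ind (S t) z)).sum) :
    Ar σ φ G = (ts.map (fun t => Ar σ φ (S t))).sum := by
  have h1 := hadd K σ φ hφ ((1, G) :: ts.map (fun t => (-1, S t))) (by
    intro q hq
    rcases List.mem_cons.1 hq with rfl | hq
    · exact hG
    · obtain ⟨t, -, rfl⟩ := List.mem_map.1 hq
      exact hS t) (by
    filter_upwards [h] with z hz
    rw [List.map_cons, List.sum_cons, hz, List.map_map]
    have : ∀ l : List ι, (l.map (fun t => ind (S t) z)).sum +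
        (l.map ((fun q : ℤ × Set ℂ => (q.1 : ℝ) * ind q.2 z) ∘ fun t => (-1, S t))).sum = 0 := by
      intro l
      induction l with
      | nil => simp
      | cons t l ih =>
        simp only [List.map_cons, List.sum_cons, Function.comp_apply] at ih ⊢
        push_cast
        linarith
    have h2 := this ts
    push_cast
    linarith)
  rw [List.map_cons, List.sum_cons, List.map_map] at h1
  have : ∀ l : List ι, (l.map (fun t => Ar σ φ (S t))).sum +
      (l.map ((fun q : ℤ × Set ℂ => (q.1 : ℝ) * Ar σ φ q.2) ∘ fun t => (-1, S t))).sum = 0 := by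
    intro l
    induction l with
    | nil => simp
    | cons t l ih =>
      simp only [List.map_cons, List.sum_cons, Function.comp_apply] at ih ⊢
      push_cast
      linarith
  have h2 := this ts
  push_cast at h1
  linarith

private theorem f3_trap {K : Subfield ℝ} {σ : K →+* ℝ} {φ : ℝ →+ ℝ} (hAr : P_Ar)
    (hφ : Semi σ φ) (t : HT K) :
    Ar σ φ t.set = φ (t.c2 - t.c1) * (φ t.b - φ t.a) +
      1 / 2 * σ (t.k2 - t.k1) * ((φ t.b) ^ 2 - (φ t.a) ^ 2) := by
  have h := hAr K σ φ hφ t.set [⟨t.a, t.b, t.c2 - t.c1, t.k2 - t.k1, t.hab⟩] (by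
    refine Filter.Eventually.of_forall fun y => ?_
    simp only [List.map_cons, List.map_nil, List.sum_cons, List.sum_nil, add_zero]
    unfold hs Piece.f
    by_cases hy : t.a < y ∧ y < t.b
    · have h1 := t.hlt y hy
      have h2 : {x : ℝ | (⟨x, y⟩ : ℂ) ∈ t.set} =
          Ioo (t.c1 + (t.k1 : ℝ) * y) (t.c2 + (t.k2 : ℝ) * y) := by
        ext x
        simp only [HT.set, Set.mem_ofPred_eq, mem_Ioo]
        tauto
      rw [h2, Real.volume_Ioo, ENNReal.toReal_ofReal (by linarith), if_pos hy]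
      push_cast
      ring
    · have h2 : {x : ℝ | (⟨x, y⟩ : ℂ) ∈ t.set} = ∅ := by
        ext x
        simp only [HT.set, Set.mem_ofPred_eq, mem_empty_iff_false, iff_false]
        tauto
      rw [h2, measure_empty, if_neg hy]
      simp)
  rw [h]
  simp [Piece.J]

private theorem f3_swaptrap {K : Subfield ℝ} {σ : K →+* ℝ} {φ : ℝ →+ ℝ} (hadd : P_add)
    (hAr : P_Ar) (hF1 : T_F1) (hF2 : T_F2) (hφ : Semi σ φ) (t : HT K) :
    Ar σ φ (swap '' t.set) = φ (t.c2 - t.c1) * (φ t.b - φ t.a) +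
      1 / 2 * σ (t.k2 - t.k1) * ((φ t.b) ^ 2 - (φ t.a) ^ 2) := by
  obtain ⟨M, hM⟩ : ∃ M : ℝ, M = |t.c1 + (t.k1 : ℝ) * t.a| + |t.c1 + (t.k1 : ℝ) * t.b| +
      |t.c2 + (t.k2 : ℝ) * t.a| + |t.c2 + (t.k2 : ℝ) * t.b| + 1 := ⟨_, rfl⟩
  have b1 := neg_abs_le (t.c1 + (t.k1 : ℝ) * t.a)
  have b2 := neg_abs_le (t.c1 + (t.k1 : ℝ) * t.b)
  have b3 := neg_abs_le (t.c2 + (t.k2 : ℝ) * t.a)
  have b4 := neg_abs_le (t.c2 + (t.k2 : ℝ) * t.b)
  have a1 := abs_nonneg (t.c1 + (t.k1 : ℝ) * t.a)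
  have a2 := abs_nonneg (t.c1 + (t.k1 : ℝ) * t.b)
  have a3 := abs_nonneg (t.c2 + (t.k2 : ℝ) * t.a)
  have a4 := abs_nonneg (t.c2 + (t.k2 : ℝ) * t.b)
  have m1 : -M < t.c1 + (t.k1 : ℝ) * t.a := by rw [hM]; linarith
  have m2 : -M < t.c1 + (t.k1 : ℝ) * t.b := by rw [hM]; linarith
  have m3 : -M < t.c2 + (t.k2 : ℝ) * t.a := by rw [hM]; linarith
  have m4 : -M < t.c2 + (t.k2 : ℝ) * t.b := by rw [hM]; linarith
  obtain ⟨l1, hl1, hs1⟩ := hF1 K σ φ hφ t.a t.b t.c1 M t.k1 t.hab m1 m2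
  obtain ⟨l2, hl2, hs2⟩ := hF1 K σ φ hφ t.a t.b t.c2 M t.k2 t.hab m3 m4
  have e1 := hAr K σ φ hφ _ l1 hl1
  have e2 := hAr K σ φ hφ _ l2 hl2
  rw [hs1] at e1
  rw [hs2] at e2
  have hlow : ∀ x : ℝ, t.a < x → x < t.b → -M < t.c1 + (t.k1 : ℝ) * x := by
    intro x hx1 hx2
    rcases le_total 0 (t.k1 : ℝ) with h | h
    · have := mul_le_mul_of_nonneg_left hx1.le h
      linarith
    · have := mul_le_mul_of_nonpos_left hx2.le h
      linarith
  have h := hadd K σ φ hφ [(1, swap '' t.set), (-1, Under t.a t.b t.c2 (t.k2 : ℝ) M),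
    (1, Under t.a t.b t.c1 (t.k1 : ℝ) M)] (by
      intro q hq
      simp only [List.mem_cons, List.not_mem_nil, or_false] at hq
      rcases hq with rfl | rfl | rfl
      · exact (hF2.2.1 K t).2
      · exact hF2.2.2 K _ _ _ _ _ t.hab
      · exact hF2.2.2 K _ _ _ _ _ t.hab) (by
      filter_upwards [f3_line t.c1 (t.k1 : ℝ)] with z hz
      simp only [List.map_cons, List.map_nil, List.sum_cons, List.sum_nil, add_zero]
      rw [f3_ind]
      have hsw : swap z ∈ t.set ↔ (t.a < z.re ∧ z.re < t.b) ∧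
          (t.c1 + (t.k1 : ℝ) * z.re < z.im ∧ z.im < t.c2 + (t.k2 : ℝ) * z.re) := Iff.rfl
      have hu1 : z ∈ Under t.a t.b t.c1 (t.k1 : ℝ) M ↔ (t.a < z.re ∧ z.re < t.b) ∧
          (-M < z.im ∧ z.im < t.c1 + (t.k1 : ℝ) * z.re) := Iff.rfl
      have hu2 : z ∈ Under t.a t.b t.c2 (t.k2 : ℝ) M ↔ (t.a < z.re ∧ z.re < t.b) ∧
          (-M < z.im ∧ z.im < t.c2 + (t.k2 : ℝ) * z.re) := Iff.rfl
      unfold ind
      by_cases hx : t.a < z.re ∧ z.re < t.b
      · have h1 := t.hlt z.re hx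
        have h2 := hlow z.re hx.1 hx.2
        rcases lt_or_gt_of_ne hz with h3 | h3
        · have n1 : swap z ∉ t.set := by
            rw [hsw]
            rintro ⟨-, h4, -⟩
            linarith
          rw [if_neg n1]
          by_cases h4 : -M < z.im
          · rw [if_pos (hu2.2 ⟨hx, h4, by linarith⟩), if_pos (hu1.2 ⟨hx, h4, h3⟩)]
            norm_num
          · rw [if_neg (fun h5 => h4 (hu2.1 h5).2.1), if_neg (fun h5 => h4 (hu1.1 h5).2.1)]
            norm_num
        · rw [if_neg (fun h5 : z ∈ Under t.a t.b t.c1 (t.k1 : ℝ) M => by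
            have := (hu1.1 h5).2.2
            linarith)]
          by_cases h4 : z.im < t.c2 + (t.k2 : ℝ) * z.re
          · rw [if_pos (hsw.2 ⟨hx, h3, h4⟩), if_pos (hu2.2 ⟨hx, by linarith, h4⟩)]
            norm_num
          · rw [if_neg (fun h5 => h4 (hsw.1 h5).2.2), if_neg (fun h5 => h4 (hu2.1 h5).2.2)]
            norm_num
      · rw [if_neg (fun h5 => hx (hsw.1 h5).1), if_neg (fun h5 => hx (hu1.1 h5).1),
          if_neg (fun h5 => hx (hu2.1 h5).1)]
        norm_num)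
  simp only [List.map_cons, List.map_nil, List.sum_cons, List.sum_nil, add_zero] at h
  rw [e1, e2] at h
  push_cast at h
  have g1 : φ (t.c2 - t.c1) = φ (t.c2 + M) - φ (t.c1 + M) := by
    rw [← map_sub]
    congr 1
    ring
  rw [g1, map_sub]
  linarith

theorem t_F3 : T_F3 := by
  intro htrap hadd hAr hF1 hF2 hgd K σ φ hφ G hG
  obtain ⟨ts, hts⟩ := htrap K G hG
  have h1 := f3_sum hadd hφ hG ts (fun t => t.set) (fun t => (hF2.2.1 K t).1) hts
  have hGs : Gd K (swap '' G) := by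
    have h := hgd K 0 1 1 0 0 G K.zero_mem K.one_mem K.one_mem K.zero_mem (by norm_num) hG
    have h2 : (fun z : ℂ => (⟨0 * z.re + 1 * z.im, 1 * z.re + 0 * z.im⟩ : ℂ) + 0) = swap := by
      funext z
      unfold swap
      apply Complex.ext <;> simp
    rwa [h2] at h
  have hts2 : ∀ᵐ z : ℂ, ind (swap '' G) z = (ts.map (fun t => ind (swap '' t.set) z)).sum := by
    have h3 := f3_mp.quasiMeasurePreserving.ae hts
    filter_upwards [h3] with z hz
    rw [f3_ind, hz]
    congr 1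
    refine List.map_congr_left fun t _ => ?_
    rw [f3_ind]
  have h2 := f3_sum hadd hφ hGs ts (fun t => swap '' t.set) (fun t => (hF2.2.1 K t).2) hts2
  rw [h1, h2]
  congr 1
  refine List.map_congr_left fun t _ => ?_
  rw [f3_swaptrap hadd hAr hF1 hF2 hφ t, f3_trap hAr hφ t]

end

end H74R2.WT
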